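import Mathlib

/-!
# K4, row ANA: pure real analysis of the window
-/

set_option autoImplicit false
set_option linter.unusedVariables false

namespace K4

/-- shares `u`, `f` with `u ^ 4 + f ^ 4` close to one: one of them is close to one -/
theorem share83 {u f : ℝ} (hu : 0 ≤ u) (hf : 0 ≤ f) (huf : u + f ≤ 1)
    (hu1 : u < 985 / 1000) (hf1 : f < 985 / 1000) : u ^ 4 + f ^ 4 ≤ 9414 / 10000 := by
  rcases le_or_gt u (15 / 1000) with h | h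
  · have h1 : u ^ 4 ≤ (15 / 1000 : ℝ) ^ 4 := pow_le_pow_left₀ hu h 4
    have h2 : f ^ 4 ≤ (985 / 1000 : ℝ) ^ 4 := pow_le_pow_left₀ hf hf1.le 4
    have h3 : (15 / 1000 : ℝ) ^ 4 + (985 / 1000 : ℝ) ^ 4 ≤ 9414 / 10000 := by norm_num
    linarith
  · have h2 : f ^ 4 ≤ (1 - u) ^ 4 := pow_le_pow_left₀ hf (by linarith) 4
    obtain ⟨p, hp⟩ : ∃ p, p = u * (1 - u) := ⟨_, rfl⟩
    have h3 : u ^ 4 + (1 - u) ^ 4 = 1 - 4 * p + 2 * p ^ 2 := by rw [hp]; ring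
    have h4 : 14775 / 1000000 ≤ p := by
      rw [hp]
      nlinarith [mul_nonneg (sub_nonneg.2 h.le) (sub_nonneg.2 hu1.le)]
    have h5 : p ≤ 1 / 4 := by
      rw [hp]
      nlinarith [sq_nonneg (u - 1 / 2)]
    nlinarith [mul_nonneg (sub_nonneg.2 h4) (sub_nonneg.2 h5)]

/-- `m = h / n`, `y = H / n`, `T` = share of lethal quadruples -/
theorem ana {m y u f T δ : ℝ} (hm1 : 2 / 9 ≤ m) (hm2 : m ≤ 9 / 40) (hy0 : 0 ≤ y) (hym : y ≤ m)
    (hu : 0 ≤ u) (hf : 0 ≤ f) (huf : u + f ≤ 1) (hδ0 : 0 ≤ δ) (hδ : δ ≤ 3 / 4000)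
    (hT1 : (4 * m) ^ 4 - δ ≤ T) (hT2 : 1 - (1 - m) ^ 4 - δ ≤ T)
    (hT : T ≤ u ^ 4 * (1 - (1 - y) ^ 4) + f ^ 4 * (4 * y) ^ 4 + (1 - u ^ 4 - f ^ 4) * (31 / 50)) :
    (985 / 1000 ≤ f ∧ (1 - 1 / 1000) * m ≤ y) ∨ (985 / 1000 ≤ u ∧ 97 / 100 * m ≤ y) := by
  have hu1 : u ≤ 1 := by linarith
  have hf1 : f ≤ 1 := by linarith
  have hA0 : 0 ≤ u ^ 4 := pow_nonneg hu 4
  have hB0 : 0 ≤ f ^ 4 := pow_nonneg hf 4
  have hAB : u ^ 4 + f ^ 4 ≤ 1 := by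
    have h1 : u ^ 4 ≤ u := pow_le_of_le_one hu hu1 (by norm_num)
    have h2 : f ^ 4 ≤ f := pow_le_of_le_one hf hf1 (by norm_num)
    linarith
  obtain ⟨F, hFd⟩ : ∃ F, F = max ((4 * m) ^ 4) (1 - (1 - m) ^ 4) := ⟨_, rfl⟩
  have hF1 : (4 * m) ^ 4 ≤ F := hFd ▸ le_max_left _ _
  have hF2 : 1 - (1 - m) ^ 4 ≤ F := hFd ▸ le_max_right _ _
  have hFT : F - δ ≤ T := by
    rcases max_choice ((4 * m) ^ 4) (1 - (1 - m) ^ 4) with h | h
    · rw [hFd, h]; exact hT1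
    · rw [hFd, h]; exact hT2
  have hFlow : 4160 / 6561 ≤ F := by
    have h1 : (1 - m) ^ 4 ≤ (1 - 2 / 9 : ℝ) ^ 4 :=
      pow_le_pow_left₀ (by linarith) (by linarith) 4
    have h2 : (1 - 2 / 9 : ℝ) ^ 4 = 2401 / 6561 := by norm_num
    linarith
  have hFup : F ≤ 1 := by
    rw [hFd]
    apply max_le
    · have h1 : (4 * m) ^ 4 ≤ (1 : ℝ) ^ 4 := pow_le_pow_left₀ (by linarith) (by linarith) 4
      linarith
    · have h1 : 0 ≤ (1 - m) ^ 4 := pow_nonneg (by linarith) 4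
      linarith
  have hyu : 1 - (1 - y) ^ 4 ≤ F := by
    have h1 : (1 - m) ^ 4 ≤ (1 - y) ^ 4 := pow_le_pow_left₀ (by linarith) (by linarith) 4
    linarith
  have hyf : (4 * y) ^ 4 ≤ F := by
    have h1 : (4 * y) ^ 4 ≤ (4 * m) ^ 4 := pow_le_pow_left₀ (by linarith) (by linarith) 4
    linarith
  -- one share is close to one
  have hkey : (1 - u ^ 4 - f ^ 4) * (F - 31 / 50) ≤ δ := by
    have h1 : u ^ 4 * (1 - (1 - y) ^ 4) ≤ u ^ 4 * F := mul_le_mul_of_nonneg_left hyu hA0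
    have h2 : f ^ 4 * (4 * y) ^ 4 ≤ f ^ 4 * F := mul_le_mul_of_nonneg_left hyf hB0
    nlinarith
  have hclose : 985 / 1000 ≤ f ∨ 985 / 1000 ≤ u := by
    by_contra hcon
    push Not at hcon
    have h1 := share83 hu hf huf hcon.2 hcon.1
    have h2 : (586 / 10000 : ℝ) ≤ 1 - u ^ 4 - f ^ 4 := by linarith
    have h3 : (586 / 10000 : ℝ) * (4160 / 6561 - 31 / 50) ≤
        (1 - u ^ 4 - f ^ 4) * (F - 31 / 50) :=
      mul_le_mul h2 (by linarith) (by norm_num) (by linarith)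
    have h4 : (3 / 4000 : ℝ) < 586 / 10000 * (4160 / 6561 - 31 / 50) := by norm_num
    linarith
  rcases hclose with h | h
  · left
    refine ⟨h, ?_⟩
    by_contra hcon
    push Not at hcon
    have hu2 : u ^ 4 ≤ (15 / 1000 : ℝ) ^ 4 := pow_le_pow_left₀ hu (by linarith) 4
    have hy2 : (4 * y) ^ 4 ≤ (1 - 1 / 1000) ^ 4 * F := by
      have h1 : (4 * y) ^ 4 ≤ (4 * ((1 - 1 / 1000) * m)) ^ 4 :=
        pow_le_pow_left₀ (by linarith) (by linarith) 4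
      have h2 : (4 * ((1 - 1 / 1000) * m)) ^ 4 = (1 - 1 / 1000) ^ 4 * (4 * m) ^ 4 := by ring
      rw [h2] at h1
      exact h1.trans (mul_le_mul_of_nonneg_left hF1 (by norm_num))
    have h1 : u ^ 4 * (1 - (1 - y) ^ 4) ≤ u ^ 4 * F := mul_le_mul_of_nonneg_left hyu hA0
    have h2 : f ^ 4 * (4 * y) ^ 4 ≤ f ^ 4 * ((1 - 1 / 1000) ^ 4 * F) :=
      mul_le_mul_of_nonneg_left hy2 hB0
    have h3 : f ^ 4 * ((1 - 1 / 1000) ^ 4 * F - 31 / 50) ≤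
        (1 - u ^ 4) * ((1 - 1 / 1000) ^ 4 * F - 31 / 50) := by
      apply mul_le_mul_of_nonneg_right (by linarith)
      have : (31 / 50 : ℝ) ≤ (1 - 1 / 1000) ^ 4 * (4160 / 6561) := by norm_num
      have h4 : (1 - 1 / 1000 : ℝ) ^ 4 * (4160 / 6561) ≤ (1 - 1 / 1000) ^ 4 * F :=
        mul_le_mul_of_nonneg_left hFlow (by norm_num)
      linarith
    have h5 : F - δ ≤ (1 - 1 / 1000) ^ 4 * F + u ^ 4 * ((1 - (1 - 1 / 1000) ^ 4) * F) := by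
      nlinarith
    have h6 : u ^ 4 * ((1 - (1 - 1 / 1000 : ℝ) ^ 4) * F) ≤ (15 / 1000 : ℝ) ^ 4 * 1 := by
      apply mul_le_mul hu2 _ _ (by norm_num)
      · have : (1 - (1 - 1 / 1000 : ℝ) ^ 4) ≤ 1 := by norm_num
        have h7 : (1 - (1 - 1 / 1000 : ℝ) ^ 4) * F ≤ 1 * 1 :=
          mul_le_mul this hFup (by linarith) (by norm_num)
        linarith
      · exact mul_nonneg (by norm_num) (by linarith)
    have h8 : (1 - (1 - 1 / 1000 : ℝ) ^ 4) * (4160 / 6561) ≤ (1 - (1 - 1 / 1000 : ℝ) ^ 4) * F :=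
      mul_le_mul_of_nonneg_left hFlow (by norm_num)
    have h9 : (3 / 4000 : ℝ) + (15 / 1000) ^ 4 * 1 <
        (1 - (1 - 1 / 1000 : ℝ) ^ 4) * (4160 / 6561) := by norm_num
    linarith
  · right
    refine ⟨h, ?_⟩
    by_contra hcon
    push Not at hcon
    have hf2 : f ^ 4 ≤ (15 / 1000 : ℝ) ^ 4 := pow_le_pow_left₀ hf (by linarith) 4
    -- the share of unit sets at `y < 0.97 m`
    have hy2 : 1 - (1 - y) ^ 4 ≤ F - 12 / 1000 := by
      have h1 : (1 - 97 / 100 * m) ^ 4 ≤ (1 - y) ^ 4 :=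
        pow_le_pow_left₀ (by linarith) (by linarith) 4
      have h2 : 12 / 1000 ≤ (1 - 97 / 100 * m) ^ 4 - (1 - m) ^ 4 := by
        have e : (1 - 97 / 100 * m) ^ 4 - (1 - m) ^ 4 =
            3 / 100 * m * (((1 - 97 / 100 * m) + (1 - m)) *
              ((1 - 97 / 100 * m) ^ 2 + (1 - m) ^ 2)) := by ring
        rw [e]
        have a1 : (31 / 40 : ℝ) ≤ 1 - m := by linarith
        have a2 : (7817 / 10000 : ℝ) ≤ 1 - 97 / 100 * m := by linarith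
        have a3 : (31 / 40 : ℝ) ^ 2 ≤ (1 - m) ^ 2 := pow_le_pow_left₀ (by norm_num) a1 2
        have a4 : (7817 / 10000 : ℝ) ^ 2 ≤ (1 - 97 / 100 * m) ^ 2 :=
          pow_le_pow_left₀ (by norm_num) a2 2
        have a5 : (7817 / 10000 + 31 / 40 : ℝ) * ((7817 / 10000) ^ 2 + (31 / 40) ^ 2) ≤
            ((1 - 97 / 100 * m) + (1 - m)) * ((1 - 97 / 100 * m) ^ 2 + (1 - m) ^ 2) :=
          mul_le_mul (by linarith) (by linarith) (by norm_num) (by linarith)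
        have a6 : 3 / 100 * (2 / 9) * ((7817 / 10000 + 31 / 40 : ℝ) *
            ((7817 / 10000) ^ 2 + (31 / 40) ^ 2)) ≤
            3 / 100 * m * (((1 - 97 / 100 * m) + (1 - m)) *
              ((1 - 97 / 100 * m) ^ 2 + (1 - m) ^ 2)) :=
          mul_le_mul (by linarith) a5 (by norm_num) (by linarith)
        have a7 : (12 / 1000 : ℝ) ≤ 3 / 100 * (2 / 9) * ((7817 / 10000 + 31 / 40 : ℝ) *
            ((7817 / 10000) ^ 2 + (31 / 40) ^ 2)) := by norm_num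
        linarith
      linarith
    have h1 : u ^ 4 * (1 - (1 - y) ^ 4) ≤ u ^ 4 * (F - 12 / 1000) :=
      mul_le_mul_of_nonneg_left hy2 hA0
    have h2 : f ^ 4 * (4 * y) ^ 4 ≤ f ^ 4 * F := mul_le_mul_of_nonneg_left hyf hB0
    have h3 : (1 - u ^ 4 - f ^ 4) * (31 / 50) ≤ (1 - u ^ 4 - f ^ 4) * (F - 12 / 1000) := by
      apply mul_le_mul_of_nonneg_left _ (by linarith)
      have : (31 / 50 : ℝ) ≤ 4160 / 6561 - 12 / 1000 := by norm_num
      linarith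
    have h4 : F - δ ≤ F - 12 / 1000 + f ^ 4 * (12 / 1000) := by nlinarith
    have h5 : f ^ 4 * (12 / 1000 : ℝ) ≤ (15 / 1000 : ℝ) ^ 4 * (12 / 1000) :=
      mul_le_mul_of_nonneg_right hf2 (by norm_num)
    have h6 : (3 / 4000 : ℝ) + (15 / 1000) ^ 4 * (12 / 1000) < 12 / 1000 := by norm_num
    linarith

end K4
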