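import Pool.Agent.Helper46.K3.Basic

/-!
# K4, row ZERO: removing or adding a dose zero
-/

set_option autoImplicit false

open Finset

namespace K4

theorem cnt_map83 {ι κ : Type*} [DecidableEq ι] [DecidableEq κ] (e : κ ↪ ι) (c : ℝ) (k : ℕ)
    (x : ι → ℝ) (S : Finset κ) :
    K3.cnt c k x (S.map e) = K3.cnt c k (fun j => x (e j)) S := by
  unfold K3.cnt
  rw [powersetCard_map, filter_map, card_map]
  congr 1
  apply filter_congr
  intro V _
  simp [sum_map]

/-- removing or adding zero doses -/
theorem cnt_add_zero {n : ℕ} (x : Fin (n + 1) → ℝ) (i : Fin (n + 1)) (hi : x i = 0) :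
    K3.cnt 1 4 x univ = K3.cnt 1 4 (fun j => x (i.succAbove j)) univ +
      K3.cnt 1 3 (fun j => x (i.succAbove j)) univ := by
  have hu : (univ : Finset (Fin (n + 1))) =
      insert i ((univ : Finset (Fin n)).map (Fin.succAboveEmb i)) := by
    rw [Fin.univ_succAbove n i, cons_eq_insert]
  have hni : i ∉ (univ : Finset (Fin n)).map (Fin.succAboveEmb i) := by
    rw [mem_map]
    rintro ⟨j, _, hj⟩
    exact Fin.succAbove_ne i j hj
  rw [hu, K3.cnt_insert 1 3 x hni, hi, sub_zero, cnt_map83, cnt_map83]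
  rfl

end K4
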